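import Pool.Agent.W223.RD.Stms

set_option autoImplicit false

namespace Pool.Agent.W588.RD.D7

open Finset Pool.Agent.W223.RD Filter

lemma nat_log_le (X L : ℝ) (hX : 1 ≤ X) (hL : L = Real.log X) : (Nat.log 2 ⌊X⌋₊ : ℝ) ≤ 2 * L := by
  have h1 : 1 ≤ ⌊X⌋₊ := Nat.le_floor (by simpa using hX)
  have h2 : 2 ^ Nat.log 2 ⌊X⌋₊ ≤ ⌊X⌋₊ := Nat.pow_log_le_self 2 (by omega)
  have h3 : ((2 : ℝ) ^ Nat.log 2 ⌊X⌋₊) ≤ X := by
    calc ((2 : ℝ) ^ Nat.log 2 ⌊X⌋₊) ≤ (⌊X⌋₊ : ℝ) := by exact_mod_cast h2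
      _ ≤ X := Nat.floor_le (by linarith)
  have h4 := Real.log_le_log (by positivity) h3
  rw [Real.log_pow] at h4
  have h5 : (0.6931471803 : ℝ) < Real.log 2 := Real.log_two_gt_d9
  have h6 : (0 : ℝ) ≤ (Nat.log 2 ⌊X⌋₊ : ℝ) := by positivity
  rw [hL]
  nlinarith

open scoped Classical in
/-- counting for a pair `(i, m)` -/
lemma pair_count (hD3 : StmtD3) (hD4 : StmtD4) (Z i m : ℕ) (K : ℝ) (LL : ℝ) (hi : 1 ≤ i) (hm : 0 < m)
    (hZ : 1 ≤ Z) (hK : 0 ≤ K) (hLL : (Nat.log 2 Z : ℝ) ≤ LL)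
    (hω : (m.primeFactors.card : ℝ) ≤ K) :
    (((Finset.Icc 1 Z).filter (fun p : ℕ => p.Prime ∧ 2 ^ i ≤ p ∧ p ≤ 2 * 2 ^ i ∧
      ((∃ q ∈ m.primeFactors, 2 < q ∧ q ≤ 2 * 2 ^ i ∧ ∃ j : ℕ, p ^ 8 ≤ q ^ j ∧ q ^ j ∣ p ^ (q - 1) - 1) ∨
       (∃ ℓ : ℕ, 2 ≤ ℓ ∧ (ℓ : ℝ) ≤ 8 * (K + 1) ∧ Rep m ℓ p)))).card : ℝ) ≤
      2 * K * Real.sqrt (2 ^ i) + 8 * (K + 1) * (8 * (K + 1) * (LL + 1) + 1) ^ (K + 1) := by
  classical
  set FA : Finset ℕ := (m.primeFactors.filter (fun q => 2 < q ∧ q ≤ 2 * 2 ^ i)).biUnion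
    (fun q => (Finset.Icc 1 Z).filter (fun p : ℕ => p.Prime ∧ 2 ^ i ≤ p ∧ p ≤ 2 * 2 ^ i ∧
      ∃ j : ℕ, p ^ 8 ≤ q ^ j ∧ q ^ j ∣ p ^ (q - 1) - 1)) with hFA
  set FB : Finset ℕ := (Finset.Icc 2 ⌊8 * (K + 1)⌋₊).biUnion
    (fun ℓ => (Finset.Icc 1 Z).filter (fun p : ℕ => p.Prime ∧ p ≤ Z ∧ Rep m ℓ p)) with hFB
  have hsub : (Finset.Icc 1 Z).filter (fun p : ℕ => p.Prime ∧ 2 ^ i ≤ p ∧ p ≤ 2 * 2 ^ i ∧
      ((∃ q ∈ m.primeFactors, 2 < q ∧ q ≤ 2 * 2 ^ i ∧ ∃ j : ℕ, p ^ 8 ≤ q ^ j ∧ q ^ j ∣ p ^ (q - 1) - 1) ∨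
       (∃ ℓ : ℕ, 2 ≤ ℓ ∧ (ℓ : ℝ) ≤ 8 * (K + 1) ∧ Rep m ℓ p))) ⊆ FA ∪ FB := by
    intro p hp
    rw [Finset.mem_filter] at hp
    obtain ⟨hpI, hpp, h1, h2, h3⟩ := hp
    rw [Finset.mem_union]
    rcases h3 with ⟨q, hq, hq2, hqi, hj⟩ | ⟨ℓ, hℓ2, hℓ, hR⟩
    · left
      rw [hFA, Finset.mem_biUnion]
      exact ⟨q, Finset.mem_filter.2 ⟨hq, hq2, hqi⟩, Finset.mem_filter.2 ⟨hpI, hpp, h1, h2, hj⟩⟩
    · right
      rw [hFB, Finset.mem_biUnion]
      refine ⟨ℓ, Finset.mem_Icc.2 ⟨hℓ2, Nat.le_floor hℓ⟩, Finset.mem_filter.2 ⟨hpI, hpp, (Finset.mem_Icc.1 hpI).2, hR⟩⟩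
  have hA : (FA.card : ℝ) ≤ 2 * K * Real.sqrt (2 ^ i) := by
    have h1 : (FA.card : ℝ) ≤ ∑ q ∈ m.primeFactors.filter (fun q => 2 < q ∧ q ≤ 2 * 2 ^ i),
        (((Finset.Icc 1 Z).filter (fun p : ℕ => p.Prime ∧ 2 ^ i ≤ p ∧ p ≤ 2 * 2 ^ i ∧
      ∃ j : ℕ, p ^ 8 ≤ q ^ j ∧ q ^ j ∣ p ^ (q - 1) - 1)).card : ℝ) := by
      exact_mod_cast Finset.card_biUnion_le
    refine h1.trans ?_
    have h2 : ∀ q ∈ m.primeFactors.filter (fun q => 2 < q ∧ q ≤ 2 * 2 ^ i),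
        (((Finset.Icc 1 Z).filter (fun p : ℕ => p.Prime ∧ 2 ^ i ≤ p ∧ p ≤ 2 * 2 ^ i ∧
      ∃ j : ℕ, p ^ 8 ≤ q ^ j ∧ q ^ j ∣ p ^ (q - 1) - 1)).card : ℝ) ≤ 2 * Real.sqrt (2 ^ i) := by
      intro q hq
      rw [Finset.mem_filter] at hq
      have h3 := hD3 q (2 ^ i) (Nat.prime_of_mem_primeFactors hq.1) hq.2.1
        (by calc 2 = 2 ^ 1 := by norm_num
              _ ≤ 2 ^ i := Nat.pow_le_pow_right (by norm_num) hi)
      have hfin : {p : ℕ | p.Prime ∧ 2 ^ i ≤ p ∧ p ≤ 2 * 2 ^ i ∧ ∃ j : ℕ, p ^ 8 ≤ q ^ j ∧ q ^ j ∣ p ^ (q - 1) - 1}.Finite :=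
        (Set.finite_Iic (2 * 2 ^ i)).subset (fun p hp => hp.2.2.1)
      have h4 : ((Finset.Icc 1 Z).filter (fun p : ℕ => p.Prime ∧ 2 ^ i ≤ p ∧ p ≤ 2 * 2 ^ i ∧
      ∃ j : ℕ, p ^ 8 ≤ q ^ j ∧ q ^ j ∣ p ^ (q - 1) - 1)).card ≤
          {p : ℕ | p.Prime ∧ 2 ^ i ≤ p ∧ p ≤ 2 * 2 ^ i ∧ ∃ j : ℕ, p ^ 8 ≤ q ^ j ∧ q ^ j ∣ p ^ (q - 1) - 1}.ncard := by
        rw [← Set.ncard_coe_finset]
        refine Set.ncard_le_ncard ?_ hfin
        intro p hp
        exact (Finset.mem_filter.1 (Finset.mem_coe.1 hp)).2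
      have h5 : (({p : ℕ | p.Prime ∧ 2 ^ i ≤ p ∧ p ≤ 2 * 2 ^ i ∧ ∃ j : ℕ, p ^ 8 ≤ q ^ j ∧ q ^ j ∣ p ^ (q - 1) - 1}.ncard : ℕ) : ℝ) ^ 2 ≤ 4 * 2 ^ i := by
        have : {p : ℕ | p.Prime ∧ 2 ^ i ≤ p ∧ p ≤ 2 * 2 ^ i ∧ ∃ j : ℕ, p ^ 8 ≤ q ^ j ∧ q ^ j ∣ p ^ (q - 1) - 1}.ncard ^ 2 ≤ 4 * 2 ^ i := by
          have := hq.2.2
          omega
        exact_mod_cast this
      have h6 : (({p : ℕ | p.Prime ∧ 2 ^ i ≤ p ∧ p ≤ 2 * 2 ^ i ∧ ∃ j : ℕ, p ^ 8 ≤ q ^ j ∧ q ^ j ∣ p ^ (q - 1) - 1}.ncard : ℕ) : ℝ) ≤ 2 * Real.sqrt (2 ^ i) := by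
        apply le_of_sq_le_sq _ (by positivity)
        rw [mul_pow, Real.sq_sqrt (by positivity)]
        linarith
      exact le_trans (by exact_mod_cast h4) h6
    refine (Finset.sum_le_sum h2).trans ?_
    rw [Finset.sum_const, nsmul_eq_mul]
    have h7 : ((m.primeFactors.filter (fun q => 2 < q ∧ q ≤ 2 * 2 ^ i)).card : ℝ) ≤ K :=
      le_trans (by exact_mod_cast Finset.card_filter_le _ _) hω
    have h8 : 0 ≤ Real.sqrt ((2 : ℝ) ^ i) := Real.sqrt_nonneg _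
    nlinarith
  have hB : (FB.card : ℝ) ≤ 8 * (K + 1) * (8 * (K + 1) * (LL + 1) + 1) ^ (K + 1) := by
    have hLL0 : 0 ≤ LL := le_trans (by positivity) hLL
    have h1 : (FB.card : ℝ) ≤ ∑ ℓ ∈ Finset.Icc 2 ⌊8 * (K + 1)⌋₊,
        (((Finset.Icc 1 Z).filter (fun p : ℕ => p.Prime ∧ p ≤ Z ∧ Rep m ℓ p)).card : ℝ) := by
      exact_mod_cast Finset.card_biUnion_le
    refine h1.trans ?_
    have h2 : ∀ ℓ ∈ Finset.Icc 2 ⌊8 * (K + 1)⌋₊,
        (((Finset.Icc 1 Z).filter (fun p : ℕ => p.Prime ∧ p ≤ Z ∧ Rep m ℓ p)).card : ℝ) ≤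
          (8 * (K + 1) * (LL + 1) + 1) ^ (K + 1) := by
      intro ℓ hℓ
      rw [Finset.mem_Icc] at hℓ
      have hℓr : (ℓ : ℝ) ≤ 8 * (K + 1) := (Nat.le_floor_iff (by positivity)).1 hℓ.2
      have h3 := hD4 m ℓ Z hm hℓ.1 hZ
      have hfin : {p : ℕ | p.Prime ∧ p ≤ Z ∧ Rep m ℓ p}.Finite :=
        (Set.finite_Iic Z).subset (fun p hp => hp.2.1)
      have h4 : ((Finset.Icc 1 Z).filter (fun p : ℕ => p.Prime ∧ p ≤ Z ∧ Rep m ℓ p)).card ≤
          {p : ℕ | p.Prime ∧ p ≤ Z ∧ Rep m ℓ p}.ncard := by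
        rw [← Set.ncard_coe_finset]
        refine Set.ncard_le_ncard ?_ hfin
        intro p hp
        exact (Finset.mem_filter.1 (Finset.mem_coe.1 hp)).2
      have h5 : (((Finset.Icc 1 Z).filter (fun p : ℕ => p.Prime ∧ p ≤ Z ∧ Rep m ℓ p)).card : ℝ) ≤
          ((ℓ : ℝ) * (Nat.log 2 Z + 1) + 1) ^ (m.primeFactors.card + 1) := by
        exact_mod_cast h4.trans h3
      refine h5.trans ?_
      have h6 : (1 : ℝ) ≤ (ℓ : ℝ) * (Nat.log 2 Z + 1) + 1 := by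
        have : (0 : ℝ) ≤ (ℓ : ℝ) * (Nat.log 2 Z + 1) := by positivity
        linarith
      have h7 : (ℓ : ℝ) * (Nat.log 2 Z + 1) + 1 ≤ 8 * (K + 1) * (LL + 1) + 1 := by
        have : (ℓ : ℝ) * (Nat.log 2 Z + 1) ≤ 8 * (K + 1) * (LL + 1) :=
          mul_le_mul hℓr (by linarith) (by positivity) (by positivity)
        linarith
      calc ((ℓ : ℝ) * (Nat.log 2 Z + 1) + 1) ^ (m.primeFactors.card + 1)
          = ((ℓ : ℝ) * (Nat.log 2 Z + 1) + 1) ^ ((m.primeFactors.card + 1 : ℕ) : ℝ) := by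
            rw [Real.rpow_natCast]
        _ ≤ ((ℓ : ℝ) * (Nat.log 2 Z + 1) + 1) ^ (K + 1) :=
            Real.rpow_le_rpow_of_exponent_le h6 (by push_cast; linarith)
        _ ≤ (8 * (K + 1) * (LL + 1) + 1) ^ (K + 1) :=
            Real.rpow_le_rpow (by linarith) h7 (by linarith)
    refine (Finset.sum_le_sum h2).trans ?_
    rw [Finset.sum_const, nsmul_eq_mul]
    have h3 : ((Finset.Icc 2 ⌊8 * (K + 1)⌋₊).card : ℝ) ≤ 8 * (K + 1) := by
      have : (Finset.Icc 2 ⌊8 * (K + 1)⌋₊).card ≤ ⌊8 * (K + 1)⌋₊ := by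
        rw [Nat.card_Icc]; omega
      exact le_trans (by exact_mod_cast this) (Nat.floor_le (by positivity))
    exact mul_le_mul_of_nonneg_right h3 (by positivity)
  calc _ ≤ ((FA ∪ FB).card : ℝ) := by exact_mod_cast Finset.card_le_card hsub
    _ ≤ (FA.card : ℝ) + FB.card := by exact_mod_cast Finset.card_union_le _ _
    _ ≤ _ := add_le_add hA hB

/-- the final numerical inequality -/
lemma numeric (L T : ℝ) (hT : T = L ^ ((1 : ℝ) / 3)) (hL : 1000 ≤ L)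
    (hlog : Real.log L ≤ T / 1000) :
    (2 * L + 1) * (2 * (T / (10 * Real.log L)) * (2 * Real.exp (-(T / 2))) +
      8 * (T / (10 * Real.log L) + 1) *
        (8 * (T / (10 * Real.log L) + 1) * (2 * L + 1) + 1) ^ (T / (10 * Real.log L) + 1) *
        (2 * Real.exp (-T))) ≤ Real.exp (-(T / 90)) := by
  set lg := Real.log L with hlg
  have hL0 : 0 < L := by linarith
  have hlg1 : 4 ≤ lg := by
    rw [hlg, Real.le_log_iff_exp_le hL0]
    have : Real.exp 4 = Real.exp 1 ^ 4 := by rw [← Real.exp_nat_mul]; norm_num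
    rw [this]
    have h1 := Real.exp_one_lt_d9
    have h2 : Real.exp 1 ^ 4 ≤ 2.7182818286 ^ 4 := pow_le_pow_left₀ (Real.exp_pos _).le h1.le 4
    norm_num at h2
    linarith
  have hT1 : 4000 ≤ T := by linarith
  have hTL : 25 * T ≤ L := by
    have h3 : T ^ 3 = L := by
      rw [hT, ← Real.rpow_natCast, ← Real.rpow_mul hL0.le]; norm_num
    nlinarith [sq_nonneg (T - 4000), mul_pos (show (0:ℝ) < T by linarith) (show (0:ℝ) < T by linarith)]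
  set K := T / (10 * lg) with hK
  have hK0 : 0 ≤ K := by positivity
  have hK1 : K + 1 ≤ T := by
    have : K ≤ T / 40 := by
      rw [hK]; exact div_le_div_of_nonneg_left (by linarith) (by norm_num) (by linarith)
    linarith
  have hKlg : K * lg = T / 10 := by rw [hK]; field_simp
  have hLexp : L = Real.exp lg := (Real.exp_log hL0).symm
  have hb : 8 * (K + 1) * (2 * L + 1) + 1 ≤ L ^ 2 := by
    have h1 : 8 * (K + 1) * (2 * L + 1) + 1 ≤ 8 * T * (2 * L + 1) + 1 := by nlinarith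
    nlinarith
  have hb1 : (8 * (K + 1) * (2 * L + 1) + 1) ^ (K + 1) ≤ Real.exp (T / 5 + T / 500) := by
    calc (8 * (K + 1) * (2 * L + 1) + 1) ^ (K + 1) ≤ (L ^ 2) ^ (K + 1) :=
          Real.rpow_le_rpow (by positivity) hb (by linarith)
      _ = Real.exp (2 * lg * (K + 1)) := by
          rw [hLexp, ← Real.exp_nat_mul, ← Real.exp_mul]; push_cast
          rfl
      _ ≤ Real.exp (T / 5 + T / 500) := by
          apply Real.exp_le_exp.2
          nlinarith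
  have hL2 : L ^ 2 ≤ Real.exp (T / 500) := by
    have : L ^ 2 = Real.exp (2 * lg) := by
      conv_lhs => rw [hLexp]
      rw [← Real.exp_nat_mul]; norm_num
    rw [this]; apply Real.exp_le_exp.2; linarith
  have hE : 2 ≤ Real.exp (T / 500) := by nlinarith
  have e1 : 2 * L + 1 ≤ Real.exp (T / 500) := by nlinarith
  have e2 : 2 * K * (2 * Real.exp (-(T / 2))) ≤ Real.exp (T / 500) * Real.exp (-(T / 2)) := by
    have : 4 * K ≤ Real.exp (T / 500) := by nlinarith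
    have hp := Real.exp_pos (-(T / 2))
    nlinarith
  have e3 : 8 * (K + 1) * (8 * (K + 1) * (2 * L + 1) + 1) ^ (K + 1) * (2 * Real.exp (-T)) ≤
      Real.exp (T / 500) * Real.exp (-(T / 2)) := by
    have h1 : 16 * (K + 1) ≤ Real.exp (T / 500) := by nlinarith
    have h2 : (8 * (K + 1) * (2 * L + 1) + 1) ^ (K + 1) * Real.exp (-T) ≤ Real.exp (-(T / 2)) := by
      calc _ ≤ Real.exp (T / 5 + T / 500) * Real.exp (-T) :=
            mul_le_mul_of_nonneg_right hb1 (Real.exp_pos _).le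
        _ = Real.exp (T / 5 + T / 500 - T) := by rw [← Real.exp_add]; ring_nf
        _ ≤ Real.exp (-(T / 2)) := Real.exp_le_exp.2 (by linarith)
    calc _ = (16 * (K + 1)) * ((8 * (K + 1) * (2 * L + 1) + 1) ^ (K + 1) * Real.exp (-T)) := by ring
      _ ≤ Real.exp (T / 500) * Real.exp (-(T / 2)) :=
          mul_le_mul h1 h2 (by positivity) (Real.exp_pos _).le
  calc _ ≤ Real.exp (T / 500) * (Real.exp (T / 500) * Real.exp (-(T / 2)) +
        Real.exp (T / 500) * Real.exp (-(T / 2))) :=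
        mul_le_mul e1 (add_le_add e2 e3) (by positivity) (Real.exp_pos _).le
    _ = 2 * (Real.exp (T / 500) * Real.exp (T / 500) * Real.exp (-(T / 2))) := by ring
    _ ≤ Real.exp (T / 500) * (Real.exp (T / 500) * Real.exp (T / 500) * Real.exp (-(T / 2))) :=
        mul_le_mul_of_nonneg_right hE (by positivity)
    _ = Real.exp (T / 500 + (T / 500 + T / 500 + -(T / 2))) := by rw [Real.exp_add, Real.exp_add, Real.exp_add]
    _ ≤ Real.exp (-(T / 90)) := Real.exp_le_exp.2 (by linarith)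

theorem tD7 (hD2 : StmtD2) (hD3 : StmtD3) (hD4 : StmtD4) : StmtD7 := by
  classical
  have hlim : ∀ᶠ L : ℝ in atTop, Real.log L ≤ L ^ ((1 : ℝ) / 3) / 1000 := by
    have h := (isLittleO_log_rpow_atTop (show (0 : ℝ) < 1 / 3 by norm_num)).bound
      (show (0 : ℝ) < 1 / 1000 by norm_num)
    filter_upwards [h, eventually_ge_atTop 1] with L hL h1
    rw [Real.norm_eq_abs, Real.norm_eq_abs] at hL
    have := le_abs_self (Real.log L)
    rw [abs_of_nonneg (Real.rpow_nonneg (by linarith : (0 : ℝ) ≤ L) (1 / 3))] at hL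
    linarith
  have hlim2 : ∀ᶠ X : ℝ in atTop, Real.log (Real.log X) ≤ Real.log X ^ ((1 : ℝ) / 3) / 1000 ∧
      1000 ≤ Real.log X :=
    (Real.tendsto_log_atTop.eventually hlim).and (Real.tendsto_log_atTop.eventually_ge_atTop 1000)
  obtain ⟨X₁, hX₁⟩ := eventually_atTop.1 hlim2
  refine ⟨max X₁ 3, le_max_right _ _, ?_⟩
  intro X hX
  obtain ⟨h1, h2⟩ := hX₁ X ((le_max_left _ _).trans hX)
  have hX3 : 3 ≤ X := (le_max_right _ _).trans hX
  set L := Real.log X with hL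
  set T := L ^ ((1 : ℝ) / 3) with hT
  have hnum := numeric L T hT h2 h1
  set K := T / (10 * Real.log L) with hK
  have hL0 : 0 < L := by linarith
  have hlgL : 0 < Real.log L := Real.log_pos (by linarith)
  have hT0 : 0 < T := Real.rpow_pos_of_pos hL0 _
  have hT1 : 1000 * Real.log L ≤ T := by linarith
  have hlg1 : 1 ≤ Real.log L := by
    rw [Real.le_log_iff_exp_le hL0]
    have := Real.exp_one_lt_d9
    linarith
  have hK0 : 0 ≤ K := by positivity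
  set Z := ⌊X⌋₊ with hZ
  have hZ1 : 1 ≤ Z := Nat.le_floor (by push_cast; linarith)
  have hLL := nat_log_le X L (by linarith) hL
  set I := (Finset.range (Nat.log 2 Z + 1)).filter (fun i => Real.exp T < 2 ^ (i + 1)) with hI
  set B := 8 * (K + 1) * (8 * (K + 1) * (2 * L + 1) + 1) ^ (K + 1) with hB
  have hB0 : 0 ≤ B := by positivity
  let Ms : ℕ → Finset ℕ := fun i => (Finset.Icc 1 ⌊X / 2 ^ i⌋₊).filter
    (fun m => (m.primeFactors.card : ℝ) ≤ K)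
  let Ps : ℕ → ℕ → Finset ℕ := fun i m => (Finset.Icc 1 Z).filter (fun p : ℕ => p.Prime ∧ 2 ^ i ≤ p ∧ p ≤ 2 * 2 ^ i ∧
      ((∃ q ∈ m.primeFactors, 2 < q ∧ q ≤ 2 * 2 ^ i ∧ ∃ j : ℕ, p ^ 8 ≤ q ^ j ∧ q ^ j ∣ p ^ (q - 1) - 1) ∨
       (∃ ℓ : ℕ, 2 ≤ ℓ ∧ (ℓ : ℝ) ≤ 8 * (K + 1) ∧ Rep m ℓ p)))
  have hcover : {R : ℕ | (R : ℝ) ≤ X ∧
    (R.primeFactors.card : ℝ) ≤ T / (10 * Real.log L) ∧
    ∃ p m ℓ : ℕ, p.Prime ∧ ℓ.Prime ∧ 0 < m ∧ ¬ p ∣ m ∧ R = p * m ∧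
      (∀ q : ℕ, q.Prime → q ∣ m → q < p) ∧ Rep m ℓ p ∧
      Real.exp T ≤ (p : ℝ)} ⊆
      ((I.biUnion (fun i => (Ms i).biUnion (fun m => (Ps i m).image (fun p => p * m))) : Finset ℕ) : Set ℕ) := by
    rintro R ⟨hRX, hω, p, m, ℓ, hp, hℓ, hm, hpm, rfl, hq, hRep, hYp⟩
    have hp0 : 0 < p := hp.pos
    rw [Finset.mem_coe, Finset.mem_biUnion]
    have hi1 : 2 ^ Nat.log 2 p ≤ p := Nat.pow_log_le_self 2 (by omega)
    have hi2 : p < 2 ^ (Nat.log 2 p + 1) := Nat.lt_pow_succ_log_self (by norm_num) p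
    have hpX : (p : ℝ) ≤ X := by
      refine le_trans ?_ hRX
      push_cast
      have : (1 : ℝ) ≤ m := by exact_mod_cast hm
      nlinarith [(Nat.cast_pos (α := ℝ)).2 hp0]
    have hpZ : p ≤ Z := Nat.le_floor hpX
    have hωm : (m.primeFactors.card : ℝ) ≤ K := by
      refine le_trans ?_ hω
      have : m.primeFactors ⊆ (p * m).primeFactors :=
        Nat.primeFactors_mono (Dvd.intro_left p rfl) (by positivity)
      exact_mod_cast Finset.card_le_card this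
    refine ⟨Nat.log 2 p, ?_, ?_⟩
    · rw [hI, Finset.mem_filter, Finset.mem_range]
      refine ⟨Nat.lt_succ_of_le (Nat.log_mono_right hpZ), ?_⟩
      calc Real.exp T ≤ (p : ℝ) := hYp
        _ < 2 ^ (Nat.log 2 p + 1) := by exact_mod_cast hi2
    · rw [Finset.mem_biUnion]
      refine ⟨m, ?_, ?_⟩
      · rw [Finset.mem_filter, Finset.mem_Icc]
        refine ⟨⟨hm, Nat.le_floor ?_⟩, hωm⟩
        rw [le_div_iff₀ (by positivity)]
        refine le_trans ?_ hRX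
        push_cast
        have : ((2 : ℝ) ^ Nat.log 2 p) ≤ p := by exact_mod_cast hi1
        have hm0 : (0 : ℝ) ≤ m := by positivity
        nlinarith
      · rw [Finset.mem_image]
        refine ⟨p, ?_, rfl⟩
        rw [Finset.mem_filter, Finset.mem_Icc]
        have hp2 : p ≤ 2 * 2 ^ Nat.log 2 p := by rw [pow_succ] at hi2; omega
        refine ⟨⟨hp0, hpZ⟩, hp, hi1, hp2, ?_⟩
        by_cases hℓb : 8 * (m.primeFactors.card + 1) < ℓ
        · left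
          obtain ⟨q, hqm, hq2, j, hj1, hj2⟩ := hD2 m ℓ p hp hℓ hm hq hRep hℓb
          refine ⟨q, hqm, hq2, ?_, j, hj1, hj2⟩
          have := hq q (Nat.prime_of_mem_primeFactors hqm) (Nat.dvd_of_mem_primeFactors hqm)
          omega
        · right
          refine ⟨ℓ, hℓ.two_le, ?_, hRep⟩
          push Not at hℓb
          have : (ℓ : ℝ) ≤ 8 * ((m.primeFactors.card : ℝ) + 1) := by exact_mod_cast hℓb
          linarith
  have hcard : (({R : ℕ | (R : ℝ) ≤ X ∧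
    (R.primeFactors.card : ℝ) ≤ T / (10 * Real.log L) ∧
    ∃ p m ℓ : ℕ, p.Prime ∧ ℓ.Prime ∧ 0 < m ∧ ¬ p ∣ m ∧ R = p * m ∧
      (∀ q : ℕ, q.Prime → q ∣ m → q < p) ∧ Rep m ℓ p ∧
      Real.exp T ≤ (p : ℝ)}.ncard : ℕ) : ℝ) ≤
      ∑ i ∈ I, ∑ m ∈ Ms i, ((Ps i m).card : ℝ) := by
    have h3 := Set.ncard_le_ncard hcover (Finset.finite_toSet _)
    rw [Set.ncard_coe_finset] at h3
    have h4 : (I.biUnion (fun i => (Ms i).biUnion (fun m => (Ps i m).image (fun p => p * m)))).card ≤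
        ∑ i ∈ I, ∑ m ∈ Ms i, (Ps i m).card :=
      Finset.card_biUnion_le.trans (Finset.sum_le_sum fun i _ =>
        Finset.card_biUnion_le.trans (Finset.sum_le_sum fun m _ => Finset.card_image_le))
    exact_mod_cast h3.trans h4
  refine hcard.trans ?_
  have hterm : ∀ i ∈ I, ∑ m ∈ Ms i, ((Ps i m).card : ℝ) ≤
      X * (2 * K * (2 * Real.exp (-(T / 2))) + B * (2 * Real.exp (-T))) := by
    intro i hi
    rw [hI, Finset.mem_filter] at hi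
    have hi2 := hi.2
    have hi1 : 1 ≤ i := by
      by_contra h0
      have : i = 0 := by omega
      rw [this] at hi2
      norm_num at hi2
      have := Real.add_one_le_exp T
      linarith
    have hP : Real.exp T / 2 < 2 ^ i := by rw [pow_succ] at hi2; linarith
    have hP0 : (0 : ℝ) < 2 ^ i := by positivity
    have h5 : ∀ m ∈ Ms i, ((Ps i m).card : ℝ) ≤ 2 * K * Real.sqrt (2 ^ i) + B := by
      intro m hm
      rw [Finset.mem_filter, Finset.mem_Icc] at hm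
      exact pair_count hD3 hD4 Z i m K (2 * L) hi1 (by omega) hZ1 hK0 hLL hm.2
    refine (Finset.sum_le_sum h5).trans ?_
    rw [Finset.sum_const, nsmul_eq_mul]
    have h6 : ((Ms i).card : ℝ) ≤ X / 2 ^ i := by
      have h7 : (Ms i).card ≤ ⌊X / 2 ^ i⌋₊ := by
        refine (Finset.card_filter_le _ _).trans ?_
        rw [Nat.card_Icc]; omega
      exact le_trans (by exact_mod_cast h7) (Nat.floor_le (by positivity))
    have h8 : 0 ≤ 2 * K * Real.sqrt (2 ^ i) + B := by positivity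
    refine (mul_le_mul_of_nonneg_right h6 h8).trans ?_
    have h9 : X / 2 ^ i * (2 * K * Real.sqrt (2 ^ i) + B) =
        X * (2 * K * (Real.sqrt (2 ^ i) / 2 ^ i) + B * (1 / 2 ^ i)) := by ring
    rw [h9]
    have hs0 : 0 < Real.sqrt (2 ^ i) := Real.sqrt_pos.2 hP0
    have hinv : 1 / (2 : ℝ) ^ i ≤ 2 * Real.exp (-T) := by
      rw [div_le_iff₀ hP0, Real.exp_neg]
      have hE := Real.exp_pos T
      have : Real.exp T * (Real.exp T)⁻¹ = 1 := mul_inv_cancel₀ hE.ne'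
      have h10 : 0 < (Real.exp T)⁻¹ := by positivity
      nlinarith
    have hsq : Real.sqrt (2 ^ i) / 2 ^ i ≤ 2 * Real.exp (-(T / 2)) := by
      have h11 : Real.sqrt (2 ^ i) / 2 ^ i = 1 / Real.sqrt (2 ^ i) := by
        rw [div_eq_div_iff hP0.ne' hs0.ne']
        rw [Real.mul_self_sqrt hP0.le]; ring
      rw [h11]
      apply le_of_sq_le_sq _ (by positivity)
      rw [div_pow, one_pow, Real.sq_sqrt hP0.le, mul_pow, ← Real.exp_nat_mul]
      have : ((2 : ℕ) : ℝ) * -(T / 2) = -T := by push_cast; ring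
      rw [this]
      have := Real.exp_pos (-T)
      linarith
    apply mul_le_mul_of_nonneg_left _ (by linarith)
    exact add_le_add (mul_le_mul_of_nonneg_left hsq (by positivity))
      (mul_le_mul_of_nonneg_left hinv hB0)
  refine (Finset.sum_le_sum hterm).trans ?_
  rw [Finset.sum_const, nsmul_eq_mul]
  have hIc : (I.card : ℝ) ≤ 2 * L + 1 := by
    have : I.card ≤ Nat.log 2 Z + 1 := by
      refine (Finset.card_filter_le _ _).trans ?_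
      rw [Finset.card_range]
    have h12 : (I.card : ℝ) ≤ (Nat.log 2 Z : ℝ) + 1 := by exact_mod_cast this
    linarith
  have h13 : 0 ≤ 2 * K * (2 * Real.exp (-(T / 2))) + B * (2 * Real.exp (-T)) := by positivity
  calc (I.card : ℝ) * (X * (2 * K * (2 * Real.exp (-(T / 2))) + B * (2 * Real.exp (-T))))
      = X * ((I.card : ℝ) * (2 * K * (2 * Real.exp (-(T / 2))) + B * (2 * Real.exp (-T)))) := by ring
    _ ≤ X * ((2 * L + 1) * (2 * K * (2 * Real.exp (-(T / 2))) + B * (2 * Real.exp (-T)))) :=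
        mul_le_mul_of_nonneg_left (mul_le_mul_of_nonneg_right hIc h13) (by linarith)
    _ ≤ X * Real.exp (-(T / 90)) := mul_le_mul_of_nonneg_left hnum (by linarith)

end Pool.Agent.W588.RD.D7
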